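import Mathlib

set_option autoImplicit false

namespace Pool.Agent.Results.MP_306cd6_co.NoEdgeUnfolding

/-! ## Solids made of unit cubes -/

/-- Points of the integer lattice in space. The point `(x, y, z)` also names the unit cube
`[x, x+1] × [y, y+1] × [z, z+1]`. -/
abbrev P3 : Type := ℤ × ℤ × ℤ

/-- `C` is connected for the relation `r`: any two elements of `C` are joined by a chain of
elements of `C` in which consecutive elements are related. -/
def Linked {α : Type} (r : α → α → Prop) (C : Set α) : Prop :=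
  ∀ p ∈ C, ∀ q ∈ C, Relation.ReflTransGen (fun a b => r a b ∧ b ∈ C) p q

/-- Two unit cubes share a facet. -/
def Touch (p q : P3) : Prop := |p.1 - q.1| + |p.2.1 - q.2.1| + |p.2.2 - q.2.2| = 1

/-- Two unit squares `[i, i+1] × [j, j+1]` of the plane (named by `(i, j)`) share a side. -/
def SideBySide (p q : ℤ × ℤ) : Prop := |p.1 - q.1| + |p.2 - q.2| = 1

/-- The eight unit cubes around the lattice point `v`. -/
def around (v : P3) : Set P3 :=
  {c | (c.1 = v.1 - 1 ∨ c.1 = v.1) ∧ (c.2.1 = v.2.1 - 1 ∨ c.2.1 = v.2.1) ∧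
    (c.2.2 = v.2.2 - 1 ∨ c.2.2 = v.2.2)}

/-- The union of the unit cubes in `S` is an orthogonal polyhedron: it is finite, nonempty and
connected through facets, and its surface is a 2-manifold (around each lattice point the cubes
of `S` are connected through facets and so are the cubes outside `S`). -/
def IsOrthogonalPolyhedron (S : Set P3) : Prop :=
  S.Finite ∧ S.Nonempty ∧ Linked Touch S ∧
    ∀ v, Linked Touch (around v ∩ S) ∧ Linked Touch (around v \ S)

/-- The unit squares in `C` form one orthogonal polygon without holes: finitely many, at least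
one, connected through sides, and the squares outside `C` are connected through sides as well. -/
def IsPolygon (C : Set (ℤ × ℤ)) : Prop :=
  C.Finite ∧ C.Nonempty ∧ Linked SideBySide C ∧ Linked SideBySide Cᶜ

/-- The unit squares that make up the slice of the solid by the plane `z = c`. -/
def slice (S : Set P3) (c : ℝ) : Set (ℤ × ℤ) :=
  {p | ∃ z : ℤ, (z : ℝ) ≤ c ∧ c ≤ z + 1 ∧ (p.1, p.2, z) ∈ S}

/-- An orthostack: an orthogonal polyhedron all of whose slices by planes `z = c` are empty or
one orthogonal polygon without holes. -/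
def IsOrthostack (S : Set P3) : Prop :=
  IsOrthogonalPolyhedron S ∧ ∀ c : ℝ, slice S c = ∅ ∨ IsPolygon (slice S c)

/-! ## The surface -/

/-- The six axis directions. -/
inductive Dir : Type
  | xp | xm | yp | ym | zp | zm
  deriving DecidableEq, Fintype

/-- The unit vector of a direction. -/
def Dir.vec : Dir → P3
  | .xp => (1, 0, 0)
  | .xm => (-1, 0, 0)
  | .yp => (0, 1, 0)
  | .ym => (0, -1, 0)
  | .zp => (0, 0, 1)
  | .zm => (0, 0, -1)

/-- A facet: the unit square in which the cube `f.1` meets the next cube in direction `f.2`.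
`IsFacet S f` says that this square is on the surface of `S`, with `f.2` the outer normal. -/
abbrev Facet : Type := P3 × Dir

/-- See `Facet`. -/
def IsFacet (S : Set P3) (f : Facet) : Prop := f.1 ∈ S ∧ f.1 + f.2.vec ∉ S

/-- The four corners of a facet. -/
def corners (f : Facet) : Finset P3 :=
  match f with
  | ((x, y, z), .xp) => {(x + 1, y, z), (x + 1, y + 1, z), (x + 1, y, z + 1), (x + 1, y + 1, z + 1)}
  | ((x, y, z), .xm) => {(x, y, z), (x, y + 1, z), (x, y, z + 1), (x, y + 1, z + 1)}
  | ((x, y, z), .yp) => {(x, y + 1, z), (x + 1, y + 1, z), (x, y + 1, z + 1), (x + 1, y + 1, z + 1)}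
  | ((x, y, z), .ym) => {(x, y, z), (x + 1, y, z), (x, y, z + 1), (x + 1, y, z + 1)}
  | ((x, y, z), .zp) => {(x, y, z + 1), (x + 1, y, z + 1), (x, y + 1, z + 1), (x + 1, y + 1, z + 1)}
  | ((x, y, z), .zm) => {(x, y, z), (x + 1, y, z), (x, y + 1, z), (x + 1, y + 1, z)}

/-- Two facets share a side (a segment of length one). -/
def ShareSide (f g : Facet) : Prop := f ≠ g ∧ (corners f ∩ corners g).card = 2

/-- Cartesian coordinates in a plane with outer normal `d`, counterclockwise when seen from
outside. -/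
def coord : Dir → P3 → ℤ × ℤ
  | .xp, (_, y, z) => (y, z)
  | .xm, (_, y, z) => (z, y)
  | .yp, (x, _, z) => (z, x)
  | .ym, (x, _, z) => (x, z)
  | .zp, (x, y, _) => (x, y)
  | .zm, (x, y, _) => (y, x)

/-- The face of the polyhedron that contains the facet `f`, as a set of unit squares of its
plane: all facets that are joined to `f` by a chain of facets of the surface with the same outer
normal, consecutive ones sharing a side. -/
def face (S : Set P3) (f : Facet) : Set (ℤ × ℤ) :=
  {p | ∃ g, Relation.ReflTransGen (fun a b => ShareSide a b ∧ IsFacet S b ∧ b.2 = a.2) f g ∧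
    p = coord g.2 g.1}

/-! ## Edge unfoldings -/

/-- An edge unfolding of the solid `S` without overlap. -/
structure EdgeUnfolding (S : Set P3) where
  /-- `joined f g`: the facets `f`, `g` share a side that is not cut. -/
  joined : Facet → Facet → Prop
  joined_symm : ∀ f g, joined f g → joined g f
  joined_share : ∀ f g, joined f g → IsFacet S f ∧ IsFacet S g ∧ ShareSide f g
  /-- cuts run only along edges of the polyhedron, not through the inside of a face -/
  joined_of_flat : ∀ f g, IsFacet S f → IsFacet S g → ShareSide f g → f.2 = g.2 → joined f g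
  /-- the cut surface is connected -/
  connected : ∀ f g, IsFacet S f → IsFacet S g → Relation.ReflTransGen joined f g
  /-- the facet `f` is placed in the plane `ℂ` by the rigid motion that sends the point of its
  plane with coordinates `(s, t)` to `b f + a f * (s + t * I)` -/
  a : Facet → ℂ
  /-- see `a` -/
  b : Facet → ℂ
  norm_a : ∀ f, IsFacet S f → ‖a f‖ = 1
  /-- two facets that share an uncut side are placed so that they share it in the plane -/
  agree : ∀ f g, joined f g → ∀ v ∈ corners f ∩ corners g,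
    b f + a f * ((coord f.2 v).1 + (coord f.2 v).2 * Complex.I) =
      b g + a g * ((coord g.2 v).1 + (coord g.2 v).2 * Complex.I)
  /-- no two facets overlap in the plane -/
  no_overlap : ∀ f g, IsFacet S f → IsFacet S g → f ≠ g → ∀ s t s' t' : ℝ,
    s ∈ Set.Ioo (0 : ℝ) 1 → t ∈ Set.Ioo (0 : ℝ) 1 → s' ∈ Set.Ioo (0 : ℝ) 1 →
    t' ∈ Set.Ioo (0 : ℝ) 1 →
    b f + a f * (((coord f.2 f.1).1 + s) + ((coord f.2 f.1).2 + t) * Complex.I) ≠
      b g + a g * (((coord g.2 g.1).1 + s') + ((coord g.2 g.1).2 + t') * Complex.I)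

/-! ## Connectivity by search -/

lemma rtg_mono {α : Type} {r r' : α → α → Prop} (h : ∀ a b, r a b → r' a b) {a b : α}
    (hab : Relation.ReflTransGen r a b) : Relation.ReflTransGen r' a b := by
  induction hab with
  | refl => exact Relation.ReflTransGen.refl
  | tail _ hbc ih => exact ih.tail (h _ _ hbc)

lemma rtg_symm {α : Type} {r : α → α → Prop} (hr : ∀ a b, r a b → r b a) {C : Set α} {a x : α}
    (ha : a ∈ C) (h : Relation.ReflTransGen (fun a b => r a b ∧ b ∈ C) a x) :
    Relation.ReflTransGen (fun a b => r a b ∧ b ∈ C) x a ∧ x ∈ C := by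
  induction h with
  | refl => exact ⟨Relation.ReflTransGen.refl, ha⟩
  | tail _ hbc ih => exact ⟨Relation.ReflTransGen.head ⟨hr _ _ hbc.1, ih.2⟩ ih.1, hbc.2⟩

section grow

variable {α : Type} [DecidableEq α]

/-- `n` rounds of breadth first search inside `dom`. -/
def grow (adj : α → α → Bool) (dom : List α) : ℕ → List α → List α
  | 0, s => s
  | n + 1, s => grow adj dom n (dom.filter fun b => s.any fun a => decide (a = b) || adj a b)

lemma grow_sound (adj : α → α → Bool) (dom : List α) (n : ℕ) :
    ∀ s : List α, ∀ x ∈ grow adj dom n s,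
      ∃ a ∈ s, Relation.ReflTransGen (fun a b => adj a b = true ∧ b ∈ dom) a x := by
  induction n with
  | zero => intro s x hx; exact ⟨x, hx, Relation.ReflTransGen.refl⟩
  | succ n ih =>
    intro s x hx
    obtain ⟨b, hb, hbx⟩ := ih _ x hx
    rw [List.mem_filter, List.any_eq_true] at hb
    obtain ⟨hbd, a, ha, hab⟩ := hb
    rw [Bool.or_eq_true, decide_eq_true_eq] at hab
    rcases hab with rfl | hab
    · exact ⟨a, ha, hbx⟩
    · exact ⟨a, ha, Relation.ReflTransGen.head ⟨hab, hbd⟩ hbx⟩

/-- The check that everything in `dom` is reached from its first element. -/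
def connB (adj : α → α → Bool) (dom : List α) (n : ℕ) : Bool :=
  match dom with
  | [] => true
  | a :: _ => let g := grow adj dom n [a]; dom.all fun x => decide (x ∈ g)

lemma linked_of_connB (adj : α → α → Bool) (r : α → α → Prop) (hr : ∀ a b, r a b → r b a)
    (hadj : ∀ a b, adj a b = true → r a b) (dom : List α) (n : ℕ) (h : connB adj dom n = true) :
    Linked r {x | x ∈ dom} := by
  cases dom with
  | nil => intro p hp; simp at hp
  | cons a0 l =>
    have key : ∀ x ∈ a0 :: l,
        Relation.ReflTransGen (fun a b => r a b ∧ b ∈ {x | x ∈ a0 :: l}) a0 x := by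
      intro x hx
      simp only [connB, List.all_eq_true, decide_eq_true_eq] at h
      obtain ⟨a, ha, hax⟩ := grow_sound adj (a0 :: l) n [a0] x (h x hx)
      rw [List.mem_singleton] at ha
      subst ha
      exact rtg_mono (fun a b hab => ⟨hadj _ _ hab.1, hab.2⟩) hax
    intro p hp q hq
    exact (rtg_symm hr (C := {x | x ∈ a0 :: l}) (List.mem_cons_self) (key p hp)).1.trans (key q hq)

end grow

/-! ## Polygons by search -/

instance (p q : ℤ × ℤ) : Decidable (SideBySide p q) := by unfold SideBySide; infer_instance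

instance (p q : P3) : Decidable (Touch p q) := by unfold Touch; infer_instance

lemma SideBySide.symm {p q : ℤ × ℤ} (h : SideBySide p q) : SideBySide q p := by
  unfold SideBySide at *
  rw [abs_sub_comm q.1, abs_sub_comm q.2]
  exact h

lemma Touch.symm {p q : P3} (h : Touch p q) : Touch q p := by
  unfold Touch at *
  rw [abs_sub_comm q.1, abs_sub_comm q.2.1, abs_sub_comm q.2.2]
  exact h

/-- the square window `[-2, 4]²` -/
def window : List (ℤ × ℤ) :=
  ([-2, -1, 0, 1, 2, 3, 4] : List ℤ).flatMap fun x => ([-2, -1, 0, 1, 2, 3, 4] : List ℤ).map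
    fun y => (x, y)

/-- The check used for polygons. -/
def polyB (D : List (ℤ × ℤ)) : Bool :=
  !D.isEmpty &&
  (D.all fun p => decide (-1 ≤ p.1 ∧ p.1 ≤ 3 ∧ -1 ≤ p.2 ∧ p.2 ≤ 3)) &&
  connB (fun p q => decide (SideBySide p q)) D 12 &&
  connB (fun p q => decide (SideBySide p q)) (window.filter fun p => !D.contains p) 16

lemma mem_window (p : ℤ × ℤ) (h : -2 ≤ p.1 ∧ p.1 ≤ 4 ∧ -2 ≤ p.2 ∧ p.2 ≤ 4) : p ∈ window := by
  obtain ⟨x, y⟩ := p
  simp only at h
  obtain ⟨h1, h2, h3, h4⟩ := h
  simp only [window, List.mem_flatMap, List.mem_map, List.mem_cons, List.not_mem_nil, or_false,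
    Prod.mk.injEq]
  exact ⟨x, by omega, y, by omega, rfl, rfl⟩

lemma horiz {C : Set (ℤ × ℤ)} (y : ℤ) (n : ℕ) (x : ℤ)
    (h : ∀ t, x ≤ t → t ≤ x + n → (t, y) ∈ C) :
    Relation.ReflTransGen (fun a b => SideBySide a b ∧ b ∈ C) (x, y) (x + n, y) := by
  induction n with
  | zero => simp only [Nat.cast_zero, add_zero]; exact Relation.ReflTransGen.refl
  | succ n ih =>
    refine (ih (fun t h1 h2 => h t h1 (by push_cast; omega))).tail ⟨?_, ?_⟩
    · simp [SideBySide]
    · exact h _ (by push_cast; omega) le_rfl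

lemma vert {C : Set (ℤ × ℤ)} (x : ℤ) (n : ℕ) (y : ℤ)
    (h : ∀ t, y ≤ t → t ≤ y + n → (x, t) ∈ C) :
    Relation.ReflTransGen (fun a b => SideBySide a b ∧ b ∈ C) (x, y) (x, y + n) := by
  induction n with
  | zero => simp only [Nat.cast_zero, add_zero]; exact Relation.ReflTransGen.refl
  | succ n ih =>
    refine (ih (fun t h1 h2 => h t h1 (by push_cast; omega))).tail ⟨?_, ?_⟩
    · simp [SideBySide]
    · exact h _ (by push_cast; omega) le_rfl

/-- horizontal moves in both directions -/
lemma horiz' {C : Set (ℤ × ℤ)} (y x x' : ℤ) (h : ∀ t, min x x' ≤ t → t ≤ max x x' → (t, y) ∈ C) :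
    Relation.ReflTransGen (fun a b => SideBySide a b ∧ b ∈ C) (x, y) (x', y) := by
  rcases le_total x x' with hx | hx
  · have := horiz (C := C) y (x' - x).toNat x (fun t h1 h2 => h t (by omega) (by omega))
    rwa [show x + ((x' - x).toNat : ℤ) = x' by omega] at this
  · have := horiz (C := C) y (x - x').toNat x' (fun t h1 h2 => h t (by omega) (by omega))
    rw [show x' + ((x - x').toNat : ℤ) = x by omega] at this
    exact (rtg_symm (fun _ _ h => h.symm) (C := C) (h x' (by omega) (by omega)) this).1

lemma vert' {C : Set (ℤ × ℤ)} (x y y' : ℤ) (h : ∀ t, min y y' ≤ t → t ≤ max y y' → (x, t) ∈ C) :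
    Relation.ReflTransGen (fun a b => SideBySide a b ∧ b ∈ C) (x, y) (x, y') := by
  rcases le_total y y' with hx | hx
  · have := vert (C := C) x (y' - y).toNat y (fun t h1 h2 => h t (by omega) (by omega))
    rwa [show y + ((y' - y).toNat : ℤ) = y' by omega] at this
  · have := vert (C := C) x (y - y').toNat y' (fun t h1 h2 => h t (by omega) (by omega))
    rw [show y' + ((y - y').toNat : ℤ) = y by omega] at this
    exact (rtg_symm (fun _ _ h => h.symm) (C := C) (h y' (by omega) (by omega)) this).1

lemma isPolygon_of_polyB (D : List (ℤ × ℤ)) (h : polyB D = true) : IsPolygon {p | p ∈ D} := by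
  simp only [polyB, Bool.and_eq_true, List.all_eq_true, decide_eq_true_eq] at h
  obtain ⟨⟨⟨h1, h2⟩, h3⟩, h4⟩ := h
  refine ⟨List.finite_toSet D, ?_, ?_, ?_⟩
  · cases D with
    | nil => simp at h1
    | cons a l => exact ⟨a, by simp⟩
  · exact linked_of_connB _ _ (fun _ _ h => h.symm) (fun a b h => by simpa using h) D 12 h3
  · have hw := linked_of_connB _ SideBySide (fun _ _ h => h.symm) (fun a b h => by simpa using h)
      _ 16 h4
    -- every point outside is joined to the corner of the window
    have hin : ∀ q : ℤ × ℤ, q ∈ {p | p ∈ window.filter fun p => !D.contains p} → q ∈ {p | p ∈ D}ᶜ := by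
      intro q hq
      simp only [Set.mem_ofPred_eq, List.mem_filter, Bool.not_eq_true', List.contains_eq_mem,
        decide_eq_false_iff_not] at hq
      exact hq.2
    have hout : ∀ q : ℤ × ℤ, (q.1 < -1 ∨ 3 < q.1 ∨ q.2 < -1 ∨ 3 < q.2) → q ∈ {p | p ∈ D}ᶜ := by
      intro q hq hqD
      have := h2 q hqD
      omega
    have hc : ((-2, -2) : ℤ × ℤ) ∈ {p | p ∈ D}ᶜ := hout _ (by norm_num)
    have key : ∀ q ∈ {p | p ∈ D}ᶜ,
        Relation.ReflTransGen (fun a b => SideBySide a b ∧ b ∈ {p | p ∈ D}ᶜ) q (-2, -2) := by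
      rintro ⟨x, y⟩ hq
      by_cases hxy : -2 ≤ x ∧ x ≤ 4 ∧ -2 ≤ y ∧ y ≤ 4
      · refine rtg_mono (fun a b hab => ⟨hab.1, hin _ hab.2⟩)
          (hw (x, y) ?_ (-2, -2) ?_)
        · simp only [Set.mem_ofPred_eq, List.mem_filter, Bool.not_eq_true', List.contains_eq_mem,
            decide_eq_false_iff_not]
          exact ⟨mem_window _ hxy, hq⟩
        · simp only [Set.mem_ofPred_eq, List.mem_filter, Bool.not_eq_true', List.contains_eq_mem,
            decide_eq_false_iff_not]
          exact ⟨mem_window _ (by norm_num), hc⟩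
      · by_cases hx : x < -1
        · exact (horiz' y x (-2) (fun t h1 h2 => hout _ (by simp only; omega))).trans
            (vert' (-2) y (-2) (fun t h1 h2 => hout _ (by simp only; omega)))
        · by_cases hy : y < -1 ∨ 3 < y
          · exact (horiz' y x (-2) (fun t h1 h2 => hout _ (by simp only; omega))).trans
              (vert' (-2) y (-2) (fun t h1 h2 => hout _ (by simp only; omega)))
          · exact ((vert' x y (-2) (fun t h1 h2 => hout _ (by simp only; omega))).trans
              (horiz' (-2) x (-2) (fun t h1 h2 => hout _ (by simp only; omega))))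
    intro p hp q hq
    exact (key p hp).trans (rtg_symm (fun _ _ h => h.symm) (C := {p | p ∈ D}ᶜ) hq (key q hq)).1

/-! ## The example: a `4 × 4 × 4` cube with an L-shaped slot -/

/-- The slot: four columns of depth three. -/
def inSlot (p : P3) : Bool :=
  decide (1 ≤ p.2.2) &&
    ((decide (p.2.1 = 0) && decide (0 ≤ p.1)) || (decide (p.1 = 0) && decide (p.2.1 = 1)))

/-- The cubes of the example. -/
def inS (p : P3) : Bool :=
  decide (-1 ≤ p.1) && decide (p.1 ≤ 2) && decide (-1 ≤ p.2.1) && decide (p.2.1 ≤ 2) &&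
    decide (0 ≤ p.2.2) && decide (p.2.2 ≤ 3) && !inSlot p

/-- The example as a set. -/
def S0 : Set P3 := {p | inS p = true}

lemma mem_S0 (x y z : ℤ) : (x, y, z) ∈ S0 ↔
    -1 ≤ x ∧ x ≤ 2 ∧ -1 ≤ y ∧ y ≤ 2 ∧ 0 ≤ z ∧ z ≤ 3 ∧
      ¬ (1 ≤ z ∧ ((y = 0 ∧ 0 ≤ x) ∨ (x = 0 ∧ y = 1))) := by
  simp only [S0, Set.mem_ofPred_eq, inS, inSlot, Bool.and_eq_true, decide_eq_true_eq,
    Bool.not_eq_true', Bool.and_eq_false_iff, decide_eq_false_iff_not, Bool.or_eq_false_iff]
  omega

/-- The list of cubes. -/
def cubesL : List P3 :=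
  (([-1, 0, 1, 2] : List ℤ).flatMap fun x => ([-1, 0, 1, 2] : List ℤ).flatMap fun y =>
    ([0, 1, 2, 3] : List ℤ).map fun z => (x, y, z)).filter inS

lemma mem_cubesL (p : P3) : p ∈ cubesL ↔ p ∈ S0 := by
  obtain ⟨x, y, z⟩ := p
  constructor
  · intro h
    simp only [cubesL, List.mem_filter] at h
    exact h.2
  · intro h
    have h' := (mem_S0 x y z).1 h
    obtain ⟨h1, h2, h3, h4, h5, h6, -⟩ := h'
    simp only [cubesL, List.mem_filter]
    refine ⟨?_, h⟩
    simp only [List.mem_flatMap, List.mem_map, List.mem_cons, List.not_mem_nil, or_false,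
      Prod.mk.injEq]
    exact ⟨x, by omega, y, by omega, z, by omega, rfl, rfl, rfl⟩

/-- The list of directions. -/
def dirsL : List Dir := [.xp, .xm, .yp, .ym, .zp, .zm]

lemma mem_dirsL (d : Dir) : d ∈ dirsL := by cases d <;> decide

/-- The list of facets. -/
def facetsL : List Facet :=
  (cubesL.flatMap fun c => dirsL.map fun d => (c, d)).filter fun f => !inS (f.1 + f.2.vec)

lemma mem_facetsL (f : Facet) : f ∈ facetsL ↔ IsFacet S0 f := by
  simp only [facetsL, List.mem_filter, List.mem_flatMap, List.mem_map, IsFacet,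
    Bool.not_eq_true']
  constructor
  · rintro ⟨⟨c, hc, d, hd, rfl⟩, h⟩
    refine ⟨(mem_cubesL _).1 hc, ?_⟩
    intro h'
    rw [S0, Set.mem_ofPred_eq] at h'
    rw [h'] at h
    exact Bool.noConfusion h
  · rintro ⟨h1, h2⟩
    refine ⟨⟨f.1, (mem_cubesL _).2 h1, f.2, mem_dirsL _, rfl⟩, ?_⟩
    rw [S0, Set.mem_ofPred_eq, Bool.not_eq_true] at h2
    exact h2

instance (f g : Facet) : Decidable (ShareSide f g) := by unfold ShareSide; infer_instance

lemma ShareSide.symm {f g : Facet} (h : ShareSide f g) : ShareSide g f :=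
  ⟨h.1.symm, by rw [Finset.inter_comm]; exact h.2⟩

/-- The coordinate of a cube along the axis of a direction. -/
def ncoord : Dir → P3 → ℤ
  | .xp, (x, _, _) => x
  | .xm, (x, _, _) => x
  | .yp, (_, y, _) => y
  | .ym, (_, y, _) => y
  | .zp, (_, _, z) => z
  | .zm, (_, _, z) => z

lemma ncoord_eq {f g : Facet} (h : ShareSide f g) (hd : g.2 = f.2) :
    ncoord g.2 g.1 = ncoord f.2 f.1 := by
  obtain ⟨-, h⟩ := h
  have hne : (corners f ∩ corners g).Nonempty := by
    rw [← Finset.card_pos, h]; norm_num
  obtain ⟨v, hv⟩ := hne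
  obtain ⟨⟨x, y, z⟩, d⟩ := f
  obtain ⟨⟨x', y', z'⟩, d'⟩ := g
  obtain ⟨a, b, c⟩ := v
  simp only at hd
  subst hd
  cases d' <;>
    simp only [corners, Finset.mem_inter, Finset.mem_insert, Finset.mem_singleton,
      Prod.mk.injEq, ncoord] at hv ⊢ <;> omega

/-- The faces of the example: outer normal and position of the plane. -/
def classesL : List (Dir × ℤ) :=
  [(.xp, 2), (.xp, -1), (.xm, -1), (.xm, 1), (.yp, 2), (.yp, -1), (.ym, -1), (.ym, 1), (.ym, 2),
    (.zp, 3), (.zp, 0), (.zm, 0)]

/-- The facets in a face. -/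
def classF (k : Dir × ℤ) : List Facet :=
  facetsL.filter fun f => decide (f.2 = k.1) && decide (ncoord f.2 f.1 = k.2)

/-- The unit squares of a face. -/
def classD (k : Dir × ℤ) : List (ℤ × ℤ) := (classF k).map fun f => coord f.2 f.1

lemma facet_class : (facetsL.all fun f => decide ((f.2, ncoord f.2 f.1) ∈ classesL)) = true := by
  decide +kernel

lemma class_conn : (classesL.all fun k =>
    connB (fun f g => decide (SideBySide (coord f.2 f.1) (coord g.2 g.1)) &&
      decide (ShareSide f g)) (classF k) 12) = true := by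
  decide +kernel

lemma class_poly : (classesL.all fun k => polyB (classD k)) = true := by
  decide +kernel

/-! ### Faces of the example -/

lemma classF_mem (k : Dir × ℤ) (f : Facet) :
    f ∈ classF k ↔ f ∈ facetsL ∧ f.2 = k.1 ∧ ncoord f.2 f.1 = k.2 := by
  simp only [classF, List.mem_filter, Bool.and_eq_true, decide_eq_true_eq]

lemma class_linked (k : Dir × ℤ) (hk : k ∈ classesL) :
    Linked ShareSide {f | f ∈ classF k} := by
  have h := class_conn
  rw [List.all_eq_true] at h
  exact linked_of_connB _ _ (fun _ _ h => h.symm)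
    (fun a b h => by
      rw [Bool.and_eq_true, decide_eq_true_eq, decide_eq_true_eq] at h
      exact h.2) (classF k) 12 (h k hk)

lemma class_mem (f : Facet) (hf : f ∈ facetsL) : (f.2, ncoord f.2 f.1) ∈ classesL := by
  have h := facet_class
  rw [List.all_eq_true] at h
  simpa using h f hf

lemma face_eq (f : Facet) (hf : IsFacet S0 f) :
    face S0 f = {p | p ∈ classD (f.2, ncoord f.2 f.1)} := by
  have hfL := (mem_facetsL f).2 hf
  ext p
  simp only [face, Set.mem_ofPred_eq, classD, List.mem_map]
  constructor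
  · rintro ⟨g, hg, rfl⟩
    refine ⟨g, ?_, rfl⟩
    rw [classF_mem]
    induction hg with
    | refl => exact ⟨hfL, rfl, rfl⟩
    | tail _ hbc ih =>
      obtain ⟨h1, h2, h3⟩ := ih
      refine ⟨(mem_facetsL _).2 hbc.2.1, hbc.2.2.trans h2, ?_⟩
      rw [ncoord_eq hbc.1 hbc.2.2]
      exact h3
  · rintro ⟨g, hg, rfl⟩
    refine ⟨g, ?_, rfl⟩
    have hfc : f ∈ classF (f.2, ncoord f.2 f.1) := by
      rw [classF_mem]; exact ⟨hfL, rfl, rfl⟩
    have h := class_linked _ (class_mem f hfL) f hfc g hg
    clear hg hfc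
    induction h with
    | refl => exact Relation.ReflTransGen.refl
    | @tail b c hab hbc ih =>
      refine ih.tail ⟨hbc.1, ?_, ?_⟩
      · exact (mem_facetsL _).1 ((classF_mem _ _).1 hbc.2).1
      · have h1 := ((classF_mem _ _).1 hbc.2).2.1
        have h2 : b.2 = f.2 := by
          clear h1 hbc ih
          induction hab with
          | refl => rfl
          | tail _ hbc _ => exact ((classF_mem _ _).1 hbc.2).2.1
        rw [h1, h2]

lemma face_polygon (f : Facet) (hf : IsFacet S0 f) : IsPolygon (face S0 f) := by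
  rw [face_eq f hf]
  have h := class_poly
  rw [List.all_eq_true] at h
  exact isPolygon_of_polyB _ (h _ (class_mem f ((mem_facetsL f).2 hf)))

/-! ### The example is an orthostack -/

lemma cubes_conn : connB (fun p q => decide (Touch p q)) cubesL 12 = true := by decide +kernel

lemma linked_S0 : Linked Touch S0 := by
  have h := linked_of_connB _ Touch (fun _ _ h => h.symm) (fun a b h => by simpa using h)
    cubesL 12 cubes_conn
  have h2 : {p | p ∈ cubesL} = S0 := by
    ext p; rw [Set.mem_ofPred_eq, mem_cubesL]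
  rwa [h2] at h

/-- The eight cubes around a lattice point, as a list. -/
def aroundL (v : P3) : List P3 :=
  ([v.1 - 1, v.1] : List ℤ).flatMap fun x => ([v.2.1 - 1, v.2.1] : List ℤ).flatMap fun y =>
    ([v.2.2 - 1, v.2.2] : List ℤ).map fun z => (x, y, z)

lemma mem_aroundL (v p : P3) : p ∈ aroundL v ↔ p ∈ around v := by
  obtain ⟨x, y, z⟩ := p
  simp only [aroundL, List.mem_flatMap, List.mem_map, List.mem_cons, List.not_mem_nil, or_false,
    Prod.mk.injEq, around, Set.mem_ofPred_eq]
  constructor
  · rintro ⟨a, ha, b, hb, c, hc, rfl, rfl, rfl⟩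
    exact ⟨ha, hb, hc⟩
  · rintro ⟨h1, h2, h3⟩
    exact ⟨x, h1, y, h2, z, h3, rfl, rfl, rfl⟩

/-- The lattice points near the example. -/
def vertsL : List P3 :=
  ([-1, 0, 1, 2, 3] : List ℤ).flatMap fun x => ([-1, 0, 1, 2, 3] : List ℤ).flatMap fun y =>
    ([0, 1, 2, 3, 4] : List ℤ).map fun z => (x, y, z)

lemma verts_check : (vertsL.all fun v =>
    connB (fun p q => decide (Touch p q)) ((aroundL v).filter inS) 6 &&
    connB (fun p q => decide (Touch p q)) ((aroundL v).filter fun p => !inS p) 6) = true := by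
  decide +kernel

lemma mem_around' (a b c x y z : ℤ) : ((x, y, z) : P3) ∈ around (a, b, c) ↔
    (x = a - 1 ∨ x = a) ∧ (y = b - 1 ∨ y = b) ∧ (z = c - 1 ∨ z = c) := Iff.rfl

lemma around_linked (v : P3) : Linked Touch (around v) := by
  obtain ⟨a, b, c⟩ := v
  have key : ∀ p ∈ around (a, b, c),
      Relation.ReflTransGen (fun p q => Touch p q ∧ q ∈ around (a, b, c)) p (a, b, c) := by
    rintro ⟨x, y, z⟩ hp
    simp only [around, Set.mem_ofPred_eq] at hp
    obtain ⟨hx, hy, hz⟩ := hp
    have h1 : Relation.ReflTransGen (fun p q => Touch p q ∧ q ∈ around (a, b, c)) (x, y, z)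
        (a, y, z) := by
      rcases hx with rfl | rfl
      · refine Relation.ReflTransGen.single ⟨?_, ?_⟩
        · simp [Touch]
        · exact (mem_around' _ _ _ _ _ _).2 ⟨Or.inr rfl, hy, hz⟩
      · exact Relation.ReflTransGen.refl
    have h2 : Relation.ReflTransGen (fun p q => Touch p q ∧ q ∈ around (a, b, c)) (a, y, z)
        (a, b, z) := by
      rcases hy with rfl | rfl
      · refine Relation.ReflTransGen.single ⟨?_, ?_⟩
        · simp [Touch]
        · exact (mem_around' _ _ _ _ _ _).2 ⟨Or.inr rfl, Or.inr rfl, hz⟩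
      · exact Relation.ReflTransGen.refl
    have h3 : Relation.ReflTransGen (fun p q => Touch p q ∧ q ∈ around (a, b, c)) (a, b, z)
        (a, b, c) := by
      rcases hz with rfl | rfl
      · refine Relation.ReflTransGen.single ⟨?_, ?_⟩
        · simp [Touch]
        · exact (mem_around' _ _ _ _ _ _).2 ⟨Or.inr rfl, Or.inr rfl, Or.inr rfl⟩
      · exact Relation.ReflTransGen.refl
    exact (h1.trans h2).trans h3
  intro p hp q hq
  exact (key p hp).trans (rtg_symm (fun _ _ h => h.symm) (C := around (a, b, c)) hq (key q hq)).1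

lemma S0_solid : IsOrthogonalPolyhedron S0 := by
  refine ⟨?_, ⟨(-1, -1, 0), by rw [mem_S0]; norm_num⟩, linked_S0, ?_⟩
  · refine (List.finite_toSet cubesL).subset ?_
    intro p hp
    exact (mem_cubesL p).2 hp
  · intro v
    by_cases hv : v ∈ vertsL
    · have h := verts_check
      rw [List.all_eq_true] at h
      have h1 := h v hv
      rw [Bool.and_eq_true] at h1
      have h2 := linked_of_connB _ Touch (fun _ _ h => h.symm) (fun a b h => by simpa using h)
        _ 6 h1.1
      have h3 := linked_of_connB _ Touch (fun _ _ h => h.symm) (fun a b h => by simpa using h)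
        _ 6 h1.2
      have e2 : {x | x ∈ (aroundL v).filter inS} = around v ∩ S0 := by
        ext p
        simp only [Set.mem_ofPred_eq, List.mem_filter, Set.mem_inter_iff, mem_aroundL, S0]
      have e3 : {x | x ∈ (aroundL v).filter fun p => !inS p} = around v \ S0 := by
        ext p
        simp only [Set.mem_ofPred_eq, List.mem_filter, Set.mem_sdiff, mem_aroundL, S0,
          Bool.not_eq_true', Bool.not_eq_true]
      rw [e2] at h2
      rw [e3] at h3
      exact ⟨h2, h3⟩
    · have hempty : ∀ p ∈ around v, p ∉ S0 := by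
        rintro ⟨x, y, z⟩ hp hS
        obtain ⟨a, b, c⟩ := v
        rw [mem_S0] at hS
        simp only [around, Set.mem_ofPred_eq] at hp
        apply hv
        simp only [vertsL, List.mem_flatMap, List.mem_map, List.mem_cons, List.not_mem_nil,
          or_false, Prod.mk.injEq]
        exact ⟨a, by omega, b, by omega, c, by omega, rfl, rfl, rfl⟩
      have e2 : around v ∩ S0 = ∅ := by
        ext p
        simp only [Set.mem_inter_iff, Set.mem_empty_iff_false, iff_false, not_and]
        exact fun h => hempty p h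
      have e3 : around v \ S0 = around v := by
        ext p
        simp only [Set.mem_sdiff]
        exact ⟨fun h => h.1, fun h => ⟨h, hempty p h⟩⟩
      rw [e2, e3]
      exact ⟨fun p hp => absurd hp (Set.notMem_empty p), around_linked v⟩

/-- the squares of the full slice -/
def fullL : List (ℤ × ℤ) :=
  ([-1, 0, 1, 2] : List ℤ).flatMap fun x => ([-1, 0, 1, 2] : List ℤ).map fun y => (x, y)

/-- the squares of the slice with the slot -/
def cutL : List (ℤ × ℤ) := fullL.filter fun p => inS (p.1, p.2, 1)

lemma full_poly : polyB fullL = true := by decide +kernel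

lemma cut_poly : polyB cutL = true := by decide +kernel

lemma mem_fullL (p : ℤ × ℤ) : p ∈ fullL ↔ (-1 ≤ p.1 ∧ p.1 ≤ 2 ∧ -1 ≤ p.2 ∧ p.2 ≤ 2) := by
  obtain ⟨x, y⟩ := p
  simp only [fullL, List.mem_flatMap, List.mem_map, List.mem_cons, List.not_mem_nil, or_false,
    Prod.mk.injEq]
  constructor
  · rintro ⟨a, ha, b, hb, rfl, rfl⟩
    omega
  · rintro h
    exact ⟨x, by omega, y, by omega, rfl, rfl⟩

lemma slice_S0 (c : ℝ) : slice S0 c = ∅ ∨ IsPolygon (slice S0 c) := by
  by_cases h0 : c < 0 ∨ 4 < c
  · left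
    ext ⟨x, y⟩
    simp only [slice, Set.mem_ofPred_eq, Set.mem_empty_iff_false, iff_false, not_exists, not_and]
    intro z hz1 hz2 hS
    rw [mem_S0] at hS
    obtain ⟨-, -, -, -, h5, h6, -⟩ := hS
    have h5' : (0 : ℝ) ≤ z := by exact_mod_cast h5
    have h6' : (z : ℝ) ≤ 3 := by exact_mod_cast h6
    rcases h0 with h | h <;> linarith
  · right
    push Not at h0
    obtain ⟨hc0, hc4⟩ := h0
    by_cases h1 : c ≤ 1
    · have e : slice S0 c = {p | p ∈ fullL} := by
        ext ⟨x, y⟩
        simp only [slice, Set.mem_ofPred_eq, mem_fullL]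
        constructor
        · rintro ⟨z, -, -, hS⟩
          rw [mem_S0] at hS
          exact ⟨hS.1, hS.2.1, hS.2.2.1, hS.2.2.2.1⟩
        · rintro ⟨hx1, hx2, hy1, hy2⟩
          refine ⟨0, by exact_mod_cast hc0, by push_cast; linarith, ?_⟩
          rw [mem_S0]
          refine ⟨hx1, hx2, hy1, hy2, le_rfl, by norm_num, ?_⟩
          rintro ⟨h, -⟩
          omega
      rw [e]
      exact isPolygon_of_polyB _ full_poly
    · push Not at h1
      have e : slice S0 c = {p | p ∈ cutL} := by
        ext ⟨x, y⟩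
        simp only [slice, Set.mem_ofPred_eq, cutL, List.mem_filter, mem_fullL]
        have hin : (inS (x, y, 1) = true) ↔ (x, y, (1 : ℤ)) ∈ S0 := by
          rw [S0, Set.mem_ofPred_eq]
        rw [hin]
        constructor
        · rintro ⟨z, hz1, hz2, hS⟩
          rw [mem_S0] at hS ⊢
          have hz : 1 ≤ z := by
            by_contra hcon
            have : z ≤ 0 := by omega
            have : (z : ℝ) ≤ 0 := by exact_mod_cast this
            linarith
          omega
        · rintro ⟨-, hS⟩
          rw [mem_S0] at hS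
          refine ⟨⌈c⌉ - 1, ?_, ?_, ?_⟩
          · push_cast
            have := Int.ceil_lt_add_one c
            linarith
          · push_cast
            have := Int.le_ceil c
            linarith
          · rw [mem_S0]
            have h2 : 1 < ⌈c⌉ := by
              rw [Int.lt_ceil]; exact_mod_cast h1
            have h3 : ⌈c⌉ ≤ 4 := by
              rw [Int.ceil_le]; exact_mod_cast hc4
            omega
      rw [e]
      exact isPolygon_of_polyB _ cut_poly

/-! ### No edge unfolding -/

/-- The facets inside the slot. -/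
def inner (f : Facet) : Bool := inSlot (f.1 + f.2.vec)

/-- The centres of the facets `s` and `t` coincide in the plane when the planes of the facets
`f` and `g` are unfolded around the line through the lattice points `v` and `w`. -/
def Coincide (f g s t : Facet) (v w : P3) : Prop :=
  let A := (2 * (coord s.2 s.1).1 + 1 - 2 * (coord f.2 v).1,
    2 * (coord s.2 s.1).2 + 1 - 2 * (coord f.2 v).2)
  let B := ((coord g.2 w).1 - (coord g.2 v).1, (coord g.2 w).2 - (coord g.2 v).2)
  let C := ((coord f.2 w).1 - (coord f.2 v).1, (coord f.2 w).2 - (coord f.2 v).2)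
  let D := (2 * (coord t.2 t.1).1 + 1 - 2 * (coord g.2 v).1,
    2 * (coord t.2 t.1).2 + 1 - 2 * (coord g.2 v).2)
  A.1 * B.1 - A.2 * B.2 = C.1 * D.1 - C.2 * D.2 ∧ A.1 * B.2 + A.2 * B.1 = C.1 * D.2 + C.2 * D.1

instance (f g s t : Facet) (v w : P3) : Decidable (Coincide f g s t v w) := by
  unfold Coincide; infer_instance

/-- The check that the two faces at a rim side overlap when the side is not cut. -/
def certB (f g : Facet) : Bool :=
  decide (∃ v ∈ corners f ∩ corners g, ∃ w ∈ corners f ∩ corners g,
    coord g.2 v ≠ coord g.2 w ∧ ∃ s ∈ classF (f.2, ncoord f.2 f.1),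
      ∃ t ∈ classF (g.2, ncoord g.2 g.1), s ≠ t ∧ Coincide f g s t v w)

lemma rim_check : (facetsL.all fun f => !inner f || facetsL.all fun g =>
    inner g || !decide (ShareSide f g) || certB f g) = true := by
  decide +kernel

lemma coord_ne {f : Facet} {v w : P3} (hv : v ∈ corners f) (hw : w ∈ corners f) (h : v ≠ w) :
    coord f.2 v ≠ coord f.2 w := by
  obtain ⟨⟨x, y, z⟩, d⟩ := f
  obtain ⟨a, b, c⟩ := v
  obtain ⟨a', b', c'⟩ := w
  cases d <;>
    simp only [corners, Finset.mem_insert, Finset.mem_singleton, Prod.mk.injEq, coord, ne_eq]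
      at hv hw h ⊢ <;> omega

/-- a point of the plane with integer coordinates, as a complex number -/
lemma cplx_ne {p q : ℤ × ℤ} (h : p ≠ q) :
    ((p.1 : ℂ) + p.2 * Complex.I) - (q.1 + q.2 * Complex.I) ≠ 0 := by
  intro h0
  apply h
  have hre := congrArg Complex.re h0
  have him := congrArg Complex.im h0
  simp at hre him
  ext
  · have : (p.1 : ℝ) = q.1 := by linarith
    exact_mod_cast this
  · have : (p.2 : ℝ) = q.2 := by linarith
    exact_mod_cast this

lemma motion_step {M : EdgeUnfolding S0} {f g : Facet} (h : M.joined f g) (hd : f.2 = g.2) :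
    M.a f = M.a g ∧ M.b f = M.b g := by
  obtain ⟨-, -, hs⟩ := M.joined_share f g h
  have hc : 1 < (corners f ∩ corners g).card := by rw [hs.2]; norm_num
  obtain ⟨v, hv, w, hw, hvw⟩ := Finset.one_lt_card.1 hc
  have e1 := M.agree f g h v hv
  have e2 := M.agree f g h w hw
  have hne := cplx_ne (coord_ne (Finset.mem_inter.1 hv).2 (Finset.mem_inter.1 hw).2 hvw)
  rw [hd] at e1 e2
  have ha : M.a f = M.a g := by
    have h3 : (M.a f - M.a g) * (((coord g.2 v).1 + (coord g.2 v).2 * Complex.I) -
        ((coord g.2 w).1 + (coord g.2 w).2 * Complex.I)) = 0 := by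
      linear_combination e1 - e2
    rcases mul_eq_zero.1 h3 with h4 | h4
    · exact sub_eq_zero.1 h4
    · exact absurd h4 hne
  refine ⟨ha, ?_⟩
  rw [ha] at e1
  linear_combination e1

lemma motion_class (M : EdgeUnfolding S0) (k : Dir × ℤ) (hk : k ∈ classesL) {f g : Facet}
    (hf : f ∈ classF k) (hg : g ∈ classF k) : M.a f = M.a g ∧ M.b f = M.b g := by
  have h := class_linked k hk f hf g hg
  have key : (M.a f = M.a g ∧ M.b f = M.b g) ∧ g ∈ classF k := by
    induction h with
    | refl => exact ⟨⟨rfl, rfl⟩, hf⟩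
    | @tail b c hab hbc ih =>
      obtain ⟨⟨h1, h2⟩, hb⟩ := ih (by
        clear hbc
        induction hab with
        | refl => exact hf
        | tail _ hbc _ => exact hbc.2)
      have hb' := (classF_mem k b).1 hb
      have hc' := (classF_mem k c).1 hbc.2
      have hd : b.2 = c.2 := by rw [hb'.2.1, hc'.2.1]
      have hj := M.joined_of_flat b c ((mem_facetsL b).1 hb'.1) ((mem_facetsL c).1 hc'.1) hbc.1 hd
      obtain ⟨h3, h4⟩ := motion_step hj hd
      exact ⟨⟨h1.trans h3, h2.trans h4⟩, hbc.2⟩
  exact key.1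

lemma rim_cut (M : EdgeUnfolding S0) (f g : Facet) (hf : inner f = true) (hg : inner g = false) :
    ¬ M.joined f g := by
  intro h
  obtain ⟨hfS, hgS, hs⟩ := M.joined_share f g h
  have hfL := (mem_facetsL f).2 hfS
  have hgL := (mem_facetsL g).2 hgS
  have hcert : certB f g = true := by
    have h0 := rim_check
    rw [List.all_eq_true] at h0
    have h1 := h0 f hfL
    rw [Bool.or_eq_true, hf] at h1
    rcases h1 with h1 | h1
    · simp at h1
    · rw [List.all_eq_true] at h1
      have h2 := h1 g hgL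
      rw [Bool.or_eq_true, Bool.or_eq_true, hg] at h2
      rcases h2 with (h2 | h2) | h2
      · exact absurd h2 (by simp)
      · rw [Bool.not_eq_true', decide_eq_false_iff_not] at h2
        exact absurd hs h2
      · exact h2
  rw [certB, decide_eq_true_eq] at hcert
  obtain ⟨v, hv, w, hw, hvw, s, hsc, t, htc, hst, hco⟩ := hcert
  have hfk := class_mem f hfL
  have hgk := class_mem g hgL
  obtain ⟨as, bs⟩ := motion_class M _ hfk ((classF_mem _ f).2 ⟨hfL, rfl, rfl⟩) hsc
  obtain ⟨at', bt⟩ := motion_class M _ hgk ((classF_mem _ g).2 ⟨hgL, rfl, rfl⟩) htc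
  have hs' := (classF_mem _ s).1 hsc
  have ht' := (classF_mem _ t).1 htc
  have e1 := M.agree f g h v hv
  have e2 := M.agree f g h w hw
  have hne := cplx_ne hvw
  have hhalf : (1 / 2 : ℝ) ∈ Set.Ioo (0 : ℝ) 1 := by constructor <;> norm_num
  have hno := M.no_overlap s t ((mem_facetsL s).1 hs'.1) ((mem_facetsL t).1 ht'.1) hst
    (1 / 2) (1 / 2) (1 / 2) (1 / 2) hhalf hhalf hhalf hhalf
  apply hno
  rw [← as, ← bs, ← at', ← bt]
  obtain ⟨hc1, hc2⟩ := hco
  have hc1' := congrArg (fun n : ℤ => (n : ℂ)) hc1
  have hc2' := congrArg (fun n : ℤ => (n : ℂ)) hc2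
  push_cast at hc1' hc2'
  push_cast
  -- the two planes are unfolded around the line through `v` and `w`
  generalize M.a f = a1 at *
  generalize M.b f = b1 at *
  generalize M.a g = a2 at *
  generalize M.b g = b2 at *
  generalize ((coord f.2 v).1 : ℂ) = fv1 at *
  generalize ((coord f.2 v).2 : ℂ) = fv2 at *
  generalize ((coord f.2 w).1 : ℂ) = fw1 at *
  generalize ((coord f.2 w).2 : ℂ) = fw2 at *
  generalize ((coord g.2 v).1 : ℂ) = gv1 at *
  generalize ((coord g.2 v).2 : ℂ) = gv2 at *
  generalize ((coord g.2 w).1 : ℂ) = gw1 at *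
  generalize ((coord g.2 w).2 : ℂ) = gw2 at *
  generalize ((coord s.2 s.1).1 : ℂ) = s1 at *
  generalize ((coord s.2 s.1).2 : ℂ) = s2 at *
  generalize ((coord t.2 t.1).1 : ℂ) = t1 at *
  generalize ((coord t.2 t.1).2 : ℂ) = t2 at *
  have hI : Complex.I * Complex.I = -1 := Complex.I_mul_I
  have k1 : ((gv1 + gv2 * Complex.I) - (gw1 + gw2 * Complex.I)) *
      (a1 * ((2 * s1 + 1 - 2 * fv1) + (2 * s2 + 1 - 2 * fv2) * Complex.I) -
        a2 * ((2 * t1 + 1 - 2 * gv1) + (2 * t2 + 1 - 2 * gv2) * Complex.I)) = 0 := by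
    linear_combination (-a1) * (hc1' + Complex.I * hc2') +
      (-a1) * ((2 * s2 + 1 - 2 * fv2) * (gw2 - gv2) - (fw2 - fv2) * (2 * t2 + 1 - 2 * gv2)) * hI -
      ((2 * t1 + 1 - 2 * gv1) + (2 * t2 + 1 - 2 * gv2) * Complex.I) * (e2 - e1)
  rcases mul_eq_zero.1 k1 with k2 | k2
  · exact absurd k2 hne
  · linear_combination (1 / 2 : ℂ) * k2 + e1

/-- **There is an orthostack, all of whose faces are polygons without holes, that has no edge
unfolding.** -/
theorem result : ∃ S : Set P3, IsOrthostack S ∧ (∀ f, IsFacet S f → IsPolygon (face S f)) ∧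
    IsEmpty (EdgeUnfolding S) := by
  refine ⟨S0, ⟨S0_solid, slice_S0⟩, face_polygon, ⟨fun M => ?_⟩⟩
  have h1 : IsFacet S0 ((-1, 0, 1), .xp) := by
    rw [← mem_facetsL]; decide +kernel
  have h2 : IsFacet S0 ((-1, -1, 0), .zm) := by
    rw [← mem_facetsL]; decide +kernel
  have h3 := M.connected _ _ h1 h2
  have h5 : ∀ g, Relation.ReflTransGen M.joined ((-1, 0, 1), .xp) g → inner g = true := by
    intro g hg
    induction hg with
    | refl => decide +kernel
    | @tail b c _ hbc ih =>
      by_contra hcon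
      rw [Bool.not_eq_true] at hcon
      exact rim_cut M b c ih hcon hbc
  have h4 := h5 _ h3
  exact absurd h4 (by decide +kernel)

end Pool.Agent.Results.MP_306cd6_co.NoEdgeUnfolding
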